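import Pool.Agent.Helper67.TY.GIRun

/-! MP_8ee768_co, project TH-Y': the keys of the glued types increase (generated). -/

set_option autoImplicit false
set_option maxRecDepth 100000
set_option linter.defProp false

namespace Pool.Agent.Gen.TY.GI

open Pool.Agent.Helper67.TY

def d0 : keyRun 1000 0 (gKey 0) = true := by decide +kernel
theorem k0 : KeySeg 0 1000 := keySeg d0

def d1 : keyRun 1000 1000 (gKey 1000) = true := by decide +kernel
theorem k1 : KeySeg 1000 2000 := keySeg d1

def d2 : keyRun 1000 2000 (gKey 2000) = true := by decide +kernel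
theorem k2 : KeySeg 2000 3000 := keySeg d2

def d3 : keyRun 1000 3000 (gKey 3000) = true := by decide +kernel
theorem k3 : KeySeg 3000 4000 := keySeg d3

def d4 : keyRun 1000 4000 (gKey 4000) = true := by decide +kernel
theorem k4 : KeySeg 4000 5000 := keySeg d4

def d5 : keyRun 1000 5000 (gKey 5000) = true := by decide +kernel
theorem k5 : KeySeg 5000 6000 := keySeg d5

def d6 : keyRun 1000 6000 (gKey 6000) = true := by decide +kernel
theorem k6 : KeySeg 6000 7000 := keySeg d6

def d7 : keyRun 1000 7000 (gKey 7000) = true := by decide +kernel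
theorem k7 : KeySeg 7000 8000 := keySeg d7

def d8 : keyRun 1000 8000 (gKey 8000) = true := by decide +kernel
theorem k8 : KeySeg 8000 9000 := keySeg d8

def d9 : keyRun 1000 9000 (gKey 9000) = true := by decide +kernel
theorem k9 : KeySeg 9000 10000 := keySeg d9

def d10 : keyRun 273 10000 (gKey 10000) = true := by decide +kernel
theorem k10 : KeySeg 10000 10273 := keySeg d10

theorem keys : KeySeg 0 10273 :=
  (((k0.app k1).app (k2.app (k3.app k4))).app ((k5.app (k6.app k7)).app (k8.app (k9.app k10))))

end Pool.Agent.Gen.TY.GI
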