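import Pool.Agent.Gen.TY.GI.GI_000
import Pool.Agent.Gen.TY.GI.GI_001
import Pool.Agent.Gen.TY.GI.GI_002
import Pool.Agent.Gen.TY.GI.Key

/-! MP_8ee768_co, project TH-Y': all isomorphisms of the glued types (generated). -/

set_option autoImplicit false

namespace Pool.Agent.Gen.TY.GI

open Pool.Agent.Helper67.TY

theorem all : IsoSeg 0 10274 :=
  (GI_000.ok.app (GI_001.ok.app GI_002.ok))

end Pool.Agent.Gen.TY.GI
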